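import Pool.Agent.Lib.MP_a78e1f_lc.R.Iface

/-!
# Module PRXI: isomorphisms have the property `PRX` (helper23)
-/

universe u v w

open Cardinal Filter MeasureTheory

namespace Pool.Agent.Lib.MP_a78e1f_lc.H23

open Pool.Agent.Lib.MP_100a6c_lc
open Pool.Agent.Lib.MP_e6fef2_lc
open Pool.Agent.Lib.MP_6d445e_gt
open Pool.Agent.Lib.MP_6d445e_gt.H74 (club_const club_fun iso iso_apply iso_symm_ce iso_cut)
open Pool.Agent.Lib.MP_a78e1f_lc

theorem club_fun2 {T T' T'' : Type u} (f : T → T' → T'') :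
    ∀ᶠ N in club.{u}, ∀ (t : T) (t' : T'), In N t → In N t' → In N (f t t') :=
  all_club.2.2.2.2.2.2.1 T T' T'' f

theorem club_eval (T : Type u) :
    ∀ᶠ N in club.{u}, ∀ (n : ℕ) (x : ℕ → T), In N x → In N (x n) :=
  all_club.2.2.1 _ fun n => club_fun fun x : ℕ → T => x n

section

variable {A C : Type u} [CompleteBooleanAlgebra A] [CompleteBooleanAlgebra C]

/-- slaloms are mapped to slaloms by complete embeddings -/
theorem sl_comp {g : C → A} (hg : IsCE g) {x : ℕ → C} (hx : Sl x) : Sl fun n => g (x n) := by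
  obtain ⟨r, hr⟩ := hx
  refine ⟨r, ?_⟩
  have h1 := ae_pull hg hr
  filter_upwards [h1] with g' hg' _
  exact hg' (Ult.mem_top _)

theorem prx_of_surj (hevx : EvxStatement.{u}) (hevf : EvfStatement.{u}) (hdix : DixStatement.{u})
    (hrfm : RfmStatement.{u}) {f : A → C} (hf : IsCE f) (hs : Function.Surjective f) : PRX f := by
  -- the inverse
  obtain ⟨f', hf'⟩ : ∃ f' : C → A, f' = fun c => (iso hf hs).symm c := ⟨_, rfl⟩
  have hce' : IsCE f' := by
    rw [hf']
    exact iso_symm_ce hf hs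
  have hff' : ∀ c, f (f' c) = c := by
    intro c
    rw [hf', ← iso_apply hf hs]
    exact OrderIso.apply_symm_apply _ c
  have hf'f : ∀ a, f' (f a) = a := by
    intro a
    rw [hf', ← iso_apply hf hs]
    exact OrderIso.symm_apply_apply _ a
  -- `rmap f` is surjective
  obtain ⟨hRce, -, -, -, -, -, -, -, -, -, -⟩ := hrfm A C f hf
  obtain ⟨hRce', -, -, -, -, -, -, -, -, -, hcomp⟩ := hrfm C A f' hce'
  obtain ⟨-, -, -, -, -, -, -, -, -, hid, -⟩ := hrfm C C (fun c => c)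
    (all_alg2 C A C f' f hce' hf).2.2
  have hRR : ∀ r : RA C, rmap f (rmap f' r) = r := by
    intro r
    have h1 := hcomp C f hf
    have h2 : (fun c => f (f' c)) = fun c : C => c := funext hff'
    rw [h2, hid] at h1
    exact (congrFun h1 r).symm
  have hRs : Function.Surjective (rmap f) := fun r => ⟨_, hRR r⟩
  obtain ⟨ftop, fbot, finf, fsup, fle, -, -, -, -, hcp, hpa, -⟩ := all_alg A C f hf
  obtain ⟨-, -, -, -, Fle, -, -, -, -, Fcp, Fpa, -⟩ := all_alg _ _ _ hRce
  have hfp : ∀ d : C, f (prj f d) = d := by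
    intro d
    obtain ⟨a, rfl⟩ := hs d
    have : prj f (f a) = a := le_antisymm ((hpa _ _).2 le_rfl) ((fle _ _).1 (hcp _))
    rw [this]
  have hFp : ∀ d : RA C, rmap f (prj (rmap f) d) = d := by
    intro d
    obtain ⟨a, rfl⟩ := hRs d
    have : prj (rmap f) (rmap f a) = a := le_antisymm ((Fpa _ _).2 le_rfl) ((Fle _ _).1 (Fcp _))
    rw [this]
  -- closure properties of `N`
  have k1 := hevf A C f hf
  have k2 := hevf C A f' hce'
  have k3 := (hevx C).2.1
  have k4 : ∀ᶠ N in club.{u}, N.Countable := all_club.2.1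
  have c1 := club_fun (fun (x : ℕ → RA C) (n : ℕ) => rmap f' (x n))
  have c2 := club_fun2 (fun (e : RA C) (xz : (ℕ → RA C) × (ℕ → RA A)) =>
    itp (rmap f) (prj (rmap f)) e xz.1 xz.2)
  have c3 := club_fun2 (fun (x : ℕ → RA C) (z : ℕ → RA A) => (x, z))
  have c4 := club_fun (fun r : RA A => rmap f r)
  have c5 := club_fun2 (fun r s : RA C => r ⊓ s)
  have c6 := club_fun2 (fun r s : RA C => r ⊔ s)
  have c7 := club_fun (fun r : RA C => rᶜ)
  have c8 := club_eval (RA C)
  have c9 := club_eval (RA A)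
  filter_upwards [k1, k2, k3, k4, c1, c2, c3, c4, c5, c6, c7, c8, c9]
    with N k1 k2 k3 k4 c1 c2 c3 c4 c5 c6 c7 c8 c9 X Y e x z he hx hxs hz
  obtain ⟨-, k1b, k1c⟩ := k1 X
  obtain ⟨k2a, -, k2c⟩ := k2 (fun n => f (X n))
  simp only [hf'f] at k2a k2c
  obtain ⟨t, ht⟩ : ∃ t, t = itp (rmap f) (prj (rmap f)) e x z := ⟨_, rfl⟩
  have htN : In N t := by
    rw [ht]
    exact c2 e (x, z) he (c3 x z hx hz)
  rw [← ht, ← fle, hfp]
  -- (a)
  have hrn : f (rn N X) ≤ rn N (fun n => f (X n)) := by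
    have := (fle _ _).2 k2a
    rwa [hff'] at this
  -- `gcX`
  have hgc : f (gcX N X Y) ≤ gcX N (fun n => f (X n)) (fun n => f (Y n)) := by
    unfold gcX
    rw [finf, finf]
    refine le_inf (inf_le_left.trans (le_inf (inf_le_left.trans hrn) ?_)) ?_
    · exact inf_le_right.trans (le_of_eq (iso_cut hf hs Y))
    · refine le_iInf fun x' => le_iInf fun hx' => le_iInf fun hsx => ?_
      have h1 : (⨅ x : ℕ → RA A, ⨅ _ : In N x, ⨅ _ : Sl x, ⨆ n, disX n x Y X) ≤
          ⨆ n, disX n (fun k => rmap f' (x' k)) Y X :=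
        iInf_le_of_le _ (iInf_le_of_le (c1 x' hx') (iInf_le_of_le (sl_comp hRce' hsx) le_rfl))
      have h2 : f (⨆ n, disX n (fun k => rmap f' (x' k)) Y X) =
          ⨆ n, f (disX n (fun k => rmap f' (x' k)) Y X) := by
        rw [← iso_apply hf hs, OrderIso.map_iSup]
        rfl
      have h3 : ∀ n, f (rn N X) ⊓ f (disX n (fun k => rmap f' (x' k)) Y X) ≤
          disX n x' (fun k => f (Y k)) (fun k => f (X k)) := by
        intro n
        have h4 := k2c n x' (fun k => f (Y k)) hx'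
        simp only [hf'f] at h4
        rw [← finf, h4, finf, hff']
        exact inf_le_right
      calc f (rn N X) ⊓ f (cut Y) ⊓ f (⨅ x : ℕ → RA A, ⨅ _ : In N x, ⨅ _ : Sl x, ⨆ n, disX n x Y X)
          ≤ f (rn N X) ⊓ ⨆ n, f (disX n (fun k => rmap f' (x' k)) Y X) := by
            refine le_inf (inf_le_left.trans inf_le_left) (inf_le_right.trans ?_)
            rw [← h2]
            exact (fle _ _).2 h1
        _ = ⨆ n, f (rn N X) ⊓ f (disX n (fun k => rmap f' (x' k)) Y X) := inf_iSup_eq _ _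
        _ ≤ ⨆ n, disX n x' (fun k => f (Y k)) (fun k => f (X k)) := iSup_mono h3
  -- the interpretation
  have hit : ∀ k, rmap f t ≤ e ⊓ agr (rmap f) z x k := by
    intro k
    rw [← hFp (e ⊓ agr (rmap f) z x k), Fle, ht]
    exact iInf_le _ k
  rw [finf, finf]
  refine le_inf (le_inf (inf_le_left.trans (inf_le_left.trans hgc)) ?_) ?_
  · -- `ev (f ∘ X) e`
    refine le_of_ae ?_
    filter_upwards [k1b t htN, k3 (fun n => f (X n))] with h h1 h2 hh
    rw [h.mem_inf, h.mem_inf] at hh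
    have hr : rn N (fun n => f (X n)) ∈ h := by
      refine h.mono hrn ?_
      have : f (gcX N X Y) ≤ f (rn N X) := (fle _ _).2 (inf_le_left.trans inf_le_left)
      exact h.mono this hh.1.1
    have h3 := (h1 hr).2 hh.1.2
    exact (h2 hr).mono _ _ (c4 t htN) he ((hit 0).trans inf_le_left) h3
  · -- `disX 0 x`
    refine le_of_ae ?_
    filter_upwards [k1b t htN, k3 (fun n => f (X n)),
      (hdix C).1 0 x (fun n => f (Y n)) (fun n => f (X n)),
      (hdix C).1 0 (fun k => rmap f (z k)) (fun n => f (Y n)) (fun n => f (X n))]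
      with h h1 h2 h5 h6 hh
    rw [h.mem_inf, h.mem_inf] at hh
    have hr : rn N (fun n => f (X n)) ∈ h := by
      refine h.mono hrn ?_
      have : f (gcX N X Y) ≤ f (rn N X) := (fle _ _).2 (inf_le_left.trans inf_le_left)
      exact h.mono this hh.1.1
    have h3 := (h1 hr).2 hh.1.2
    have hG := h2 hr
    have h7 : disX 0 (fun k => rmap f (z k)) (fun n => f (Y n)) (fun n => f (X n)) ∈ h := by
      have h8 := k1c 0 z Y hz
      have h9 : rn N (fun n => f (X n)) ⊓ f (disX 0 z Y X) ∈ h := h.inf _ _ hr hh.2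
      rw [← h8] at h9
      exact h.mono inf_le_right h9
    rw [h6] at h7
    rw [h5]
    intro p hp i hxi hYi
    obtain ⟨n, hn⟩ : ∃ n, n = Nat.pair p i := ⟨_, rfl⟩
    have h8 := h7 p hp i
    rw [← hn] at h8 hxi hYi
    refine h8 ?_ hYi
    -- `ev (x n)` implies `ev (rmap f (z n))`
    have nx : In N (x n) := c8 n x hx
    have ns : In N (rmap f (z n)) := c4 _ (c9 n z hz)
    have h10 : rmap f t ≤ (rmap f (z n) ⊓ x n) ⊔ ((rmap f (z n))ᶜ ⊓ (x n)ᶜ) :=
      (hit (n + 1)).trans (inf_le_right.trans (iInf_le_of_le n (iInf_le _ (Nat.lt_succ_self n))))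
    have n1 : In N (rmap f (z n) ⊓ x n) := c5 _ _ ns nx
    have n2 : In N ((rmap f (z n))ᶜ) := c7 _ ns
    have n3 : In N ((x n)ᶜ) := c7 _ nx
    have n4 : In N ((rmap f (z n))ᶜ ⊓ (x n)ᶜ) := c5 _ _ n2 n3
    have n5 : In N ((rmap f (z n) ⊓ x n) ⊔ ((rmap f (z n))ᶜ ⊓ (x n)ᶜ)) := c6 _ _ n1 n4
    have h11 := hG.mono _ _ (c4 t htN) n5 h10 h3
    rw [hG.sup _ _ n1 n4, hG.inf _ _ ns nx, hG.inf _ _ n2 n3, hG.cpl _ ns, hG.cpl _ nx] at h11
    tauto

end

/-- **PRXI** -/
theorem prxi (hevx : EvxStatement.{u}) (hevf : EvfStatement.{u}) (hdix : DixStatement.{u})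
    (hrfm : RfmStatement.{u}) : PrxiStatement.{u} := fun _ _ _ _ _ hf hs =>
  prx_of_surj hevx hevf hdix hrfm hf hs

end Pool.Agent.Lib.MP_a78e1f_lc.H23
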